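import Pool.Agent.H36.Rail2

open Pool.Agent.H38.NP Pool.Agent.H38.ER Pool.Agent.H36.Rail

theorem Pool.Agent.Results.MP_2ca8f5_lc.PolyTime.result :
    ∃ f, PolyTime f ∧ ∀ I : Inst, Valid I → ∃ s : Fin I.2.2.2.length → ℚ,
      f (enc I) = enc (List.ofFn s) ∧ Sched I (fun k => s k) ∧
        ∀ s', Sched I s' → cancelled I (fun k => s k) ≤ cancelled I s' := by
  obtain ⟨f, hf, e⟩ := pt_out.polyTimeOn fun _ => True
  refine ⟨f, hf, fun I h => ?_⟩
  obtain ⟨s, h1, h2⟩ := main h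
  exact ⟨s, by rw [e _ trivial, h1], h2⟩
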